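import Pool.Agent.Helper26K1.WW.Pair
import Pool.Agent.Helper26K1.WD.Cover

/-!
A local large sieve inequality for the windows, and bounded weights.
-/

set_option autoImplicit false

open MeasureTheory Filter Topology Set
open scoped ENNReal NNReal

namespace Pool.Agent.Helper26K1.WW

open Pool.Agent.W764.HL Pool.Agent.W764.FB Pool.Agent.W764.SH Pool.Agent.Helper26K1.WD

/-- Bessel's inequality for nearly orthogonal vectors. -/
lemma bessel {m : ℕ} (W : Finset ℕ) (b : ℕ → ℂ) (hb : ∀ n, ‖b n‖ ≤ 1) (v : Fin m → ℕ → ℂ)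
    (hv : ∀ l n, ‖v l n‖ ≤ 1) {η : ℝ} (hη : 0 ≤ η)
    (hoff : ∀ l l', l ≠ l' → ‖∑ n ∈ W, v l n * (starRingEnd ℂ) (v l' n)‖ ≤ η * W.card) :
    ∑ l, ‖∑ n ∈ W, b n * v l n‖ ^ 2 ≤ (W.card : ℝ) ^ 2 * (1 + m * η) := by
  set S : Fin m → ℂ := fun l => ∑ n ∈ W, b n * v l n with hS
  set Q : ℝ := ∑ l, ‖S l‖ ^ 2 with hQ
  have hQ0 : 0 ≤ Q := Finset.sum_nonneg fun l _ => by positivity
  set V : ℕ → ℂ := fun n => ∑ l, (starRingEnd ℂ) (S l) * v l n with hV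
  have h1 : ((Q : ℝ) : ℂ) = ∑ n ∈ W, b n * V n := by
    rw [hQ, Complex.ofReal_sum]
    have h2 : ∀ l, ((‖S l‖ ^ 2 : ℝ) : ℂ) = ∑ n ∈ W, b n * ((starRingEnd ℂ) (S l) * v l n) := by
      intro l
      have h3 : ((‖S l‖ ^ 2 : ℝ) : ℂ) = (starRingEnd ℂ) (S l) * S l := by
        rw [mul_comm, Complex.mul_conj, Complex.normSq_eq_norm_sq]
      rw [h3]
      conv_lhs => rw [hS]
      simp only
      rw [Finset.mul_sum]
      refine Finset.sum_congr rfl fun n _ => by ring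
    simp_rw [h2]
    rw [Finset.sum_comm]
    refine Finset.sum_congr rfl fun n _ => ?_
    rw [hV, Finset.mul_sum]
  have h2 : Q ≤ ∑ n ∈ W, ‖V n‖ := by
    have h3 : Q = ‖((Q : ℝ) : ℂ)‖ := by
      rw [Complex.norm_real, Real.norm_of_nonneg hQ0]
    rw [h3, h1]
    refine (norm_sum_le _ _).trans (Finset.sum_le_sum fun n _ => ?_)
    rw [norm_mul]
    calc ‖b n‖ * ‖V n‖ ≤ 1 * ‖V n‖ := by gcongr; exact hb n
      _ = ‖V n‖ := one_mul _
  have h3 : ((∑ n ∈ W, ‖V n‖ ^ 2 : ℝ) : ℂ) = ∑ l, ∑ l', (starRingEnd ℂ) (S l) * S l' *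
      ∑ n ∈ W, v l n * (starRingEnd ℂ) (v l' n) := by
    rw [Complex.ofReal_sum]
    have h4 : ∀ n, ((‖V n‖ ^ 2 : ℝ) : ℂ) = ∑ l, ∑ l', (starRingEnd ℂ) (S l) * S l' *
        (v l n * (starRingEnd ℂ) (v l' n)) := by
      intro n
      have h5 : ((‖V n‖ ^ 2 : ℝ) : ℂ) = V n * (starRingEnd ℂ) (V n) := by
        rw [Complex.mul_conj, Complex.normSq_eq_norm_sq]
      rw [h5]
      have h6 : (starRingEnd ℂ) (V n) = ∑ l', S l' * (starRingEnd ℂ) (v l' n) := by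
        rw [hV, map_sum]
        refine Finset.sum_congr rfl fun l' _ => ?_
        rw [map_mul, Complex.conj_conj]
      rw [h6, hV, Finset.sum_mul_sum]
      refine Finset.sum_congr rfl fun l _ => Finset.sum_congr rfl fun l' _ => by ring
    simp_rw [h4]
    rw [Finset.sum_comm]
    refine Finset.sum_congr rfl fun l _ => ?_
    rw [Finset.sum_comm]
    refine Finset.sum_congr rfl fun l' _ => ?_
    exact (Finset.mul_sum _ _ _).symm
  have hdiag : ∀ l, ‖∑ n ∈ W, v l n * (starRingEnd ℂ) (v l n)‖ ≤ W.card := by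
    intro l
    refine (norm_sum_le _ _).trans ((Finset.sum_le_card_nsmul _ _ 1 fun n _ => ?_).trans ?_)
    · rw [norm_mul, RCLike.norm_conj]
      exact mul_le_one₀ (hv l n) (norm_nonneg _) (hv l n)
    · simp
  have h4 : ∑ n ∈ W, ‖V n‖ ^ 2 ≤ W.card * Q * (1 + m * η) := by
    have h5 : ∑ n ∈ W, ‖V n‖ ^ 2 = ‖((∑ n ∈ W, ‖V n‖ ^ 2 : ℝ) : ℂ)‖ := by
      rw [Complex.norm_real, Real.norm_of_nonneg (Finset.sum_nonneg fun n _ => by positivity)]
    rw [h5, h3]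
    have h6 : ‖∑ l, ∑ l', (starRingEnd ℂ) (S l) * S l' *
        ∑ n ∈ W, v l n * (starRingEnd ℂ) (v l' n)‖ ≤
        ∑ l, ∑ l', (‖S l‖ * ‖S l'‖ * (η * W.card) + if l = l' then ‖S l‖ ^ 2 * W.card else 0) := by
      refine (norm_sum_le _ _).trans (Finset.sum_le_sum fun l _ => (norm_sum_le _ _).trans
        (Finset.sum_le_sum fun l' _ => ?_))
      rw [norm_mul, norm_mul, RCLike.norm_conj]
      split_ifs with h
      · subst h
        have h7 := hdiag l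
        have h8 : 0 ≤ ‖S l‖ * ‖S l‖ * (η * W.card) := by positivity
        have h9 : ‖S l‖ * ‖S l‖ * ‖∑ n ∈ W, v l n * (starRingEnd ℂ) (v l n)‖ ≤
            ‖S l‖ * ‖S l‖ * W.card := by gcongr
        nlinarith
      · rw [add_zero]
        have := hoff l l' h
        gcongr
    refine h6.trans ?_
    simp_rw [Finset.sum_add_distrib, Finset.sum_ite_eq, Finset.mem_univ, if_true]
    rw [← Finset.sum_mul]
    have h7 : ∑ l, ∑ l', ‖S l‖ * ‖S l'‖ * (η * W.card) =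
        (∑ l, ‖S l‖) ^ 2 * (η * W.card) := by
      rw [sq, Finset.sum_mul_sum, Finset.sum_mul]
      refine Finset.sum_congr rfl fun l _ => ?_
      rw [Finset.sum_mul]
    have h8 : (∑ l, ‖S l‖) ^ 2 ≤ m * Q := by
      have := sq_sum_le_card_mul_sum_sq (s := (Finset.univ : Finset (Fin m))) (f := fun l => ‖S l‖)
      rwa [Finset.card_univ, Fintype.card_fin] at this
    rw [h7]
    have h9 : 0 ≤ η * (W.card : ℝ) := by positivity
    have h10 : (∑ l, ‖S l‖) ^ 2 * (η * W.card) ≤ m * Q * (η * W.card) := by gcongr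
    calc (∑ l, ‖S l‖) ^ 2 * (η * W.card) + Q * W.card ≤ m * Q * (η * W.card) + Q * W.card := by
          linarith
      _ = W.card * Q * (1 + m * η) := by ring
  have h5 : (∑ n ∈ W, ‖V n‖) ^ 2 ≤ W.card * ∑ n ∈ W, ‖V n‖ ^ 2 := sq_sum_le_card_mul_sum_sq
  have h6 : Q ^ 2 ≤ (W.card : ℝ) ^ 2 * (1 + m * η) * Q := by
    calc Q ^ 2 ≤ (∑ n ∈ W, ‖V n‖) ^ 2 := by gcongr
      _ ≤ W.card * ∑ n ∈ W, ‖V n‖ ^ 2 := h5
      _ ≤ W.card * (W.card * Q * (1 + m * η)) := by gcongr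
      _ = (W.card : ℝ) ^ 2 * (1 + m * η) * Q := by ring
  rcases hQ0.eq_or_lt with h7 | h7
  · rw [← h7]; positivity
  · rw [sq] at h6
    exact le_of_mul_le_mul_right h6 h7

/-- the points which are correlated with one of the weights in all late windows of ratio `H` -/
def excw (a : ℕ → ℕ → ℂ) (p q : ℕ) (ε : ℝ) (M : ℕ) (H X0 : ℝ) : Set T :=
  {y | ∀ X : ℝ, X0 ≤ X → (win p q X (H * X)).Nonempty → ∃ i : ℕ, i ≤ M ∧ ∃ k : ℤ, k ≠ 0 ∧ |k| ≤ M ∧
    ε * (win p q X (H * X)).card < ‖∑ n ∈ win p q X (H * X), a i n * (fourier k (n • y) : ℂ)‖}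

section
variable {p q : ℕ} (hp : 2 ≤ p) (hq : 2 ≤ q)
include hp hq

lemma excw_noCluster (hirr : Irrational (Real.log p / Real.log q)) {a : ℕ → ℕ → ℂ}
    (ha : ∀ i n, ‖a i n‖ ≤ 1) {ε : ℝ} (hε : 0 < ε) (M : ℕ) {m : ℕ}
    (hm : 2 * ((M + 1 : ℝ) * (2 * M + 1)) < m * ε ^ 2) {K : ℝ} (hK : 1 ≤ K) :
    ∀ᶠ H : ℝ in atTop, ∀ X0 : ℝ, ∃ τ0 : ℝ, 0 < τ0 ∧ ∀ τ : ℝ, 0 < τ → τ < τ0 →
      NoCluster (excw a p q ε M H X0) m K τ := by
  classical
  set NI : ℝ := (M + 1 : ℝ) * (2 * M + 1) with hNI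
  have hNI0 : 0 < NI := by positivity
  set η : ℝ := ε ^ 2 / (2 * NI) with hη
  have hη0 : 0 < η := by positivity
  filter_upwards [pair_char hp hq hirr hK hη0 M] with H hH X0
  obtain ⟨δ, hδ, hδ2⟩ := mem_nhdsGT_iff_exists_Ioo_subset.1 hH
  have hδ0 : (0 : ℝ) < δ := hδ
  have hmax : 0 < max X0 1 := lt_max_of_lt_right one_pos
  refine ⟨min δ (1 / max X0 1), by positivity, fun τ hτ hττ y hy hyd => ?_⟩
  obtain ⟨hW, h3⟩ := hδ2 (show τ ∈ Ioo 0 δ from ⟨hτ, hττ.trans_le (min_le_left _ _)⟩)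
  have hX : X0 ≤ 1 / τ := by
    have h3 : τ ≤ 1 / max X0 1 := (hττ.trans_le (min_le_right _ _)).le
    rw [le_div_iff₀ hmax] at h3
    rw [le_div_iff₀ hτ]
    have h4 : X0 * τ ≤ max X0 1 * τ := by
      gcongr; exact le_max_left _ _
    linarith
  have he : H / τ = H * (1 / τ) := by ring
  rw [he] at hW h3
  set W := win p q (1 / τ) (H * (1 / τ)) with hWdef
  have hWc : (0 : ℝ) < W.card := by exact_mod_cast hW.card_pos
  have hmem : ∀ l, ∃ i : ℕ, i ≤ M ∧ ∃ k : ℤ, k ≠ 0 ∧ |k| ≤ M ∧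
      ε * W.card < ‖∑ n ∈ W, a i n * (fourier k (n • y l) : ℂ)‖ := fun l => hy l _ hX hW
  choose i hi k hk0 hkM hlt using hmem
  set I : Finset (ℕ × ℤ) := (Finset.range (M + 1)) ×ˢ
    ((Finset.Icc (-(M : ℤ)) M).filter fun k => k ≠ 0) with hI
  have hIc : (I.card : ℝ) ≤ NI := by
    have h4 : I.card ≤ (M + 1) * (2 * M + 1) := by
      rw [hI, Finset.card_product, Finset.card_range]
      refine Nat.mul_le_mul_left _ ((Finset.card_filter_le _ _).trans ?_)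
      rw [Int.card_Icc]
      omega
    rw [hNI]
    exact_mod_cast h4
  have hB : ∀ u ∈ I, ∑ l, ‖∑ n ∈ W, a u.1 n * (fourier u.2 (n • y l) : ℂ)‖ ^ 2 ≤
      (W.card : ℝ) ^ 2 * (1 + m * η) := by
    rintro ⟨i', k'⟩ hu
    rw [hI, Finset.mem_product, Finset.mem_filter, Finset.mem_Icc] at hu
    obtain ⟨-, ⟨h5, h6⟩, h7⟩ := hu
    refine bessel W (a i') (ha i') (fun l n => (fourier k' (n • y l) : ℂ))
      (fun l n => (norm_fourier _ _).le) hη0.le ?_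
    intro l l' hll
    have h8 := h3 (y l - y l') (hyd l l' hll).1 (hyd l l' hll).2 k' h7 (abs_le.2 ⟨h5, h6⟩)
    refine le_trans (le_of_eq ?_) h8
    congr 1
    refine Finset.sum_congr rfl fun n _ => ?_
    rw [smul_sub, sub_eq_add_neg, fourier_add_pt]
    congr 1
    rw [fourier_apply, fourier_apply, smul_neg, AddCircle.toCircle_neg, Circle.coe_inv_eq_conj]
  have h4 : (m : ℝ) * (ε ^ 2 * (W.card : ℝ) ^ 2) ≤
      ∑ l, ∑ u ∈ I, ‖∑ n ∈ W, a u.1 n * (fourier u.2 (n • y l) : ℂ)‖ ^ 2 := by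
    have h5 : ∑ _l : Fin m, (ε ^ 2 * (W.card : ℝ) ^ 2) = (m : ℝ) * (ε ^ 2 * (W.card : ℝ) ^ 2) := by
      rw [Finset.sum_const, Finset.card_univ, Fintype.card_fin, nsmul_eq_mul]
    rw [← h5]
    refine Finset.sum_le_sum fun l _ => ?_
    have h6 : ((i l, k l) : ℕ × ℤ) ∈ I := by
      rw [hI, Finset.mem_product, Finset.mem_filter, Finset.mem_Icc, Finset.mem_range]
      have h7 := abs_le.1 (hkM l)
      exact ⟨by have := hi l; show i l < M + 1; omega, h7, hk0 l⟩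
    refine le_trans ?_ (Finset.single_le_sum
      (f := fun u : ℕ × ℤ => ‖∑ n ∈ W, a u.1 n * (fourier u.2 (n • y l) : ℂ)‖ ^ 2)
      (fun u _ => by positivity) h6)
    have h7 := (hlt l).le
    calc ε ^ 2 * (W.card : ℝ) ^ 2 = (ε * W.card) ^ 2 := by ring
      _ ≤ ‖∑ n ∈ W, a (i l) n * (fourier (k l) (n • y l) : ℂ)‖ ^ 2 := by gcongr
  rw [Finset.sum_comm] at h4
  have h5 := h4.trans (Finset.sum_le_card_nsmul _ _ _ hB)
  rw [nsmul_eq_mul] at h5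
  have h6 : (I.card : ℝ) * ((W.card : ℝ) ^ 2 * (1 + m * η)) ≤
      NI * ((W.card : ℝ) ^ 2 * (1 + m * η)) := by gcongr
  have h7 : (m : ℝ) * ε ^ 2 * (W.card : ℝ) ^ 2 ≤ (NI + m * ε ^ 2 / 2) * (W.card : ℝ) ^ 2 := by
    have e : NI * ((W.card : ℝ) ^ 2 * (1 + m * η)) = (NI + m * ε ^ 2 / 2) * (W.card : ℝ) ^ 2 := by
      rw [hη]
      field_simp
    rw [← e]
    linarith
  have h8 := le_of_mul_le_mul_right h7 (by positivity)
  linarith

/-- **Covering numbers of the exceptional sets.** -/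
theorem excw_cover (hirr : Irrational (Real.log p / Real.log q)) {a : ℕ → ℕ → ℂ}
    (ha : ∀ i n, ‖a i n‖ ≤ 1) {ε s : ℝ} (hε : 0 < ε) (hs : 0 < s) (M : ℕ) :
    ∃ H0 : ℝ, ∀ H : ℝ, H0 ≤ H → ∀ X0 : ℝ, CoverN (excw a p q ε M H X0) s := by
  obtain ⟨m, hm⟩ := exists_nat_gt (2 * ((M + 1 : ℝ) * (2 * M + 1)) / ε ^ 2)
  rw [div_lt_iff₀ (by positivity)] at hm
  have hm0R : (0 : ℝ) < m := by
    by_contra hcon
    push Not at hcon
    have h1 : 0 < 2 * ((M + 1 : ℝ) * (2 * M + 1)) := by positivity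
    have h2 : (m : ℝ) * ε ^ 2 ≤ 0 := mul_nonpos_of_nonpos_of_nonneg hcon (by positivity)
    linarith
  have hm0 : 1 ≤ m := by
    have : 0 < m := by exact_mod_cast hm0R
    exact this
  set K : ℝ := 2 * ((m : ℝ) ^ (1 / s) + 1) with hK
  have hpos : 0 < (m : ℝ) ^ (1 / s) := by positivity
  have hK2 : 2 < K := by rw [hK]; linarith
  have hms : ((m - 1 : ℕ) : ℝ) ≤ (K / 2) ^ s := by
    have h1 : K / 2 = (m : ℝ) ^ (1 / s) + 1 := by rw [hK]; ring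
    rw [h1]
    calc ((m - 1 : ℕ) : ℝ) ≤ (m : ℝ) := by exact_mod_cast Nat.sub_le m 1
      _ = ((m : ℝ) ^ (1 / s)) ^ s := by
          rw [← Real.rpow_mul hm0R.le, one_div_mul_cancel hs.ne', Real.rpow_one]
      _ ≤ ((m : ℝ) ^ (1 / s) + 1) ^ s :=
          Real.rpow_le_rpow hpos.le (by linarith) hs.le
  obtain ⟨H0, h⟩ := eventually_atTop.1 (excw_noCluster hp hq hirr ha hε M hm
    (by linarith : (1 : ℝ) ≤ K))
  refine ⟨H0, fun H hH X0 => ?_⟩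
  obtain ⟨τ0, hτ0, h2⟩ := h H hH X0
  exact coverN_of_noCluster hm0 hK2 hτ0 hs hms h2

end

lemma CoverN.mono {A B : Set T} {s : ℝ} (h : CoverN B s) (hAB : A ⊆ B) : CoverN A s := by
  obtain ⟨C, hC, h⟩ := h
  refine ⟨C, hC, fun ρ hρ hρ1 => ?_⟩
  obtain ⟨F, hF1, hF2⟩ := h ρ hρ hρ1
  exact ⟨F, hF1, fun x hx => hF2 x (hAB hx)⟩

lemma coverN_empty (s : ℝ) : CoverN (∅ : Set T) s :=
  ⟨1, one_pos, fun ρ hρ _ => ⟨∅, by simp; positivity, by simp⟩⟩

/-- countable unions -/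
def Small (A : Set T) (s : ℝ) : Prop := ∃ B : ℕ → Set T, A ⊆ ⋃ n, B n ∧ ∀ n, CoverN (B n) s

lemma small_of_coverN {A : Set T} {s : ℝ} (h : CoverN A s) : Small A s :=
  ⟨fun _ => A, fun x hx => mem_iUnion.2 ⟨0, hx⟩, fun _ => h⟩

lemma small_mono {A B : Set T} {s : ℝ} (h : Small B s) (hAB : A ⊆ B) : Small A s := by
  obtain ⟨C, h1, h2⟩ := h
  exact ⟨C, hAB.trans h1, h2⟩

lemma small_iUnion {ι : Sort*} [Countable ι] {A : ι → Set T} {s : ℝ} (h : ∀ i, Small (A i) s) :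
    Small (⋃ i, A i) s := by
  choose B hB1 hB2 using h
  rcases isEmpty_or_nonempty ι with hι | hι
  · exact ⟨fun _ => ∅, by simp, fun _ => coverN_empty s⟩
  · obtain ⟨e, he⟩ := exists_surjective_nat ι
    refine ⟨fun n => B (e n.unpair.1) n.unpair.2, fun x hx => ?_, fun n => hB2 _ _⟩
    obtain ⟨i, hi⟩ := mem_iUnion.1 hx
    obtain ⟨j, hj⟩ := mem_iUnion.1 (hB1 i hi)
    obtain ⟨n, hn⟩ := he i
    refine mem_iUnion.2 ⟨Nat.pair n j, ?_⟩
    simp only [Nat.unpair_pair, hn]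
    exact hj

lemma small_dim {A : Set T} (h : ∀ s : ℝ, 0 < s → Small A s) : dimH A = 0 := by
  refine le_antisymm ?_ zero_le
  refine ENNReal.le_of_forall_pos_le_add fun s hs _ => ?_
  rw [zero_add]
  obtain ⟨B, hB1, hB2⟩ := h (s : ℝ) (by exact_mod_cast hs)
  refine (dimH_mono hB1).trans ?_
  rw [dimH_iUnion]
  exact iSup_le fun n => dimH_le_of_coverN hs (hB2 n)

/-- the exceptional set -/
def EW (a : ℕ → ℕ → ℂ) : Set T :=
  ⋃ p : ℕ, ⋃ q : ℕ, ⋃ _ : 2 ≤ p ∧ 2 ≤ q ∧ Irrational (Real.log p / Real.log q), ⋃ u : ℕ × ℕ,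
    ⋂ j : ℕ, ⋃ H : ℕ, ⋃ _ : j ≤ H, ⋃ X0 : ℕ, excw a p q (1 / ((u.1 : ℝ) + 1)) u.2 H X0

lemma EW_small {a : ℕ → ℕ → ℂ} (ha : ∀ i n, ‖a i n‖ ≤ 1) {s : ℝ} (hs : 0 < s) :
    Small (EW a) s := by
  refine small_iUnion fun p => small_iUnion fun q => small_iUnion fun h => small_iUnion fun u => ?_
  obtain ⟨H0, hH0⟩ := excw_cover h.1 h.2.1 h.2.2 ha (ε := 1 / ((u.1 : ℝ) + 1)) (by positivity) hs
    u.2
  obtain ⟨j, hj⟩ := exists_nat_ge H0
  refine small_mono ?_ (iInter_subset _ j)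
  refine small_iUnion fun H => small_iUnion fun hH => small_iUnion fun X0 => small_of_coverN ?_
  exact hH0 H (hj.trans (by exact_mod_cast hH)) X0

/-- no correlation outside the exceptional set -/
theorem weights {a : ℕ → ℕ → ℂ} {p q : ℕ} (hp : 2 ≤ p) (hq : 2 ≤ q)
    (hirr : Irrational (Real.log p / Real.log q)) {y : T} (hy : y ∉ EW a)
    {ε : ℝ} (hε : 0 < ε) (M : ℕ) : ∃ H0 : ℕ, ∀ H : ℕ, H0 ≤ H → ∀ X0 : ℝ, ∃ X : ℝ, X0 ≤ X ∧
      (win p q X (H * X)).Nonempty ∧ ∀ i : ℕ, i ≤ M → ∀ k : ℤ, k ≠ 0 → |k| ≤ M →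
        ‖∑ n ∈ win p q X (H * X), a i n * (fourier k (n • y) : ℂ)‖ ≤
          ε * (win p q X (H * X)).card := by
  obtain ⟨n, hn⟩ := exists_nat_one_div_lt hε
  unfold EW at hy
  simp only [mem_iUnion, mem_iInter, not_exists, not_forall] at hy
  obtain ⟨j, hj⟩ := hy p q ⟨hp, hq, hirr⟩ (n, M)
  refine ⟨j, fun H hH X0 => ?_⟩
  obtain ⟨X1, hX1⟩ := exists_nat_ge X0
  have h1 := hj H hH X1
  unfold excw at h1
  simp only [mem_ofPred_eq, not_forall] at h1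
  obtain ⟨X, hX, hW, h1⟩ := h1
  refine ⟨X, hX1.trans hX, hW, fun i hi k hk0 hkM => ?_⟩
  by_contra hcon
  push Not at hcon
  apply h1
  refine ⟨i, hi, k, hk0, hkM, lt_of_le_of_lt ?_ hcon⟩
  gcongr

/-- generic points -/
theorem generic_mem {a : ℕ → ℕ → ℂ} (ha1 : ∃ i, ∀ n, a i n = 1) {p q : ℕ} (hp : 2 ≤ p)
    (hq : 2 ≤ q) (hirr : Irrational (Real.log p / Real.log q)) {μ : Measure T}
    [IsProbabilityMeasure μ] (hμ : μ ≠ volume) {y : T} (hy : WGen p q μ y) : y ∈ EW a := by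
  by_contra hcon
  apply hμ
  obtain ⟨i, hi⟩ := ha1
  have hvol : ∀ k : ℤ, k ≠ 0 → ∫ x : T, (fourier k x : ℂ) = 0 := fun k hk =>
    Pool.Agent.H847R3.XpXq.integral_fourier_zero hk
  refine ext_fourier fun k => ?_
  rcases eq_or_ne k 0 with rfl | hk
  · simp
  rw [hvol k hk]
  have hc : ∀ c : ℂ, ‖c‖ = 1 → (∫ x, (c * (fourier k x : ℂ)).re ∂μ) ≤ 0 := by
    intro c hc
    refine le_of_forall_pos_le_add fun e he => ?_
    rw [zero_add]
    obtain ⟨H1, hH1⟩ := hy (fun x => (c * (fourier k x : ℂ)).re)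
      (Complex.continuous_re.comp (continuous_const.mul (fourier k).continuous)) (e / 2)
      (by positivity)
    obtain ⟨H2, hH2⟩ := weights hp hq hirr hcon (ε := e / 2) (by positivity) (max i k.natAbs)
    obtain ⟨H3, hH31, hH32⟩ : ∃ H3, H1 ≤ H3 ∧ H2 ≤ H3 :=
      ⟨max H1 H2, le_max_left _ _, le_max_right _ _⟩
    obtain ⟨X0, hX0⟩ := hH1 H3 hH31
    obtain ⟨X, hX, hne, hv⟩ := hH2 H3 hH32 X0
    have h1 := hX0 X hX
    have h2 := hv i (le_max_left _ _) k hk (by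
      rw [Int.abs_eq_natAbs]
      exact_mod_cast le_max_right _ _)
    set W := win p q X (H3 * X) with hW
    have hWR : (0 : ℝ) < W.card := by exact_mod_cast hne.card_pos
    have h3 : |∑ n ∈ W, (c * (fourier k (n • y) : ℂ)).re| ≤ e / 2 * W.card := by
      rw [← Complex.re_sum, ← Finset.mul_sum]
      refine (Complex.abs_re_le_norm _).trans ?_
      rw [norm_mul, hc, one_mul]
      simp_rw [hi, one_mul] at h2
      exact h2
    rw [abs_le] at h1 h3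
    have h4 : (∫ x, (c * (fourier k x : ℂ)).re ∂μ) * W.card ≤ e * W.card := by
      linarith [h1.1, h3.2]
    exact le_of_mul_le_mul_right h4 hWR
  obtain ⟨c, hc1, hc2⟩ := RCLike.exists_norm_eq_mul_self (∫ x, (fourier k x : ℂ) ∂μ)
  have h1 := hc c hc1
  have hint : Integrable (fun x => (fourier k x : ℂ)) μ :=
    Pool.Agent.W764.FB.integrable_cont μ (fourier k)
  have h2 : ∫ x, (c * (fourier k x : ℂ)).re ∂μ = (c * ∫ x, (fourier k x : ℂ) ∂μ).re := by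
    rw [← integral_const_mul]
    exact integral_re (𝕜 := ℂ) (hint.const_mul c)
  rw [h2] at h1
  have h3 : ((‖∫ x, (fourier k x : ℂ) ∂μ‖ : ℝ) : ℂ) = c * ∫ x, (fourier k x : ℂ) ∂μ := hc2
  rw [← h3, Complex.ofReal_re] at h1
  exact norm_le_zero_iff.1 h1

end Pool.Agent.Helper26K1.WW
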