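import Pool.Agent.W764.HL.Gen
import Pool.Agent.W764.FB.Ext
import Pool.Agent.W764.FB.Host3

/-!
Exponential sums over windows: points at distance comparable to `τ` are uncorrelated in the window
which starts at `1 / τ`, for multiplicatively independent `p, q`.
-/

set_option autoImplicit false

open MeasureTheory Filter Topology Set
open scoped ENNReal NNReal

namespace Pool.Agent.Helper26K1.WW

open Pool.Agent.W764.HL Pool.Agent.W764.FB Pool.Agent.W764.SH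

lemma norm_fourier (k : ℤ) (x : T) : ‖(fourier k x : ℂ)‖ = 1 := by
  rw [fourier_apply]
  exact Circle.norm_coe _

lemma sum_dilate_c {s : ℕ} (hs : 1 ≤ s) (W : Finset ℕ) (F : ℕ → ℂ) (hF : ∀ n, ‖F n‖ ≤ 1) :
    ‖∑ n ∈ W, F (s * n) - ∑ n ∈ W, F n‖ ≤ 2 * ((W.filter fun n => s * n ∉ W).card : ℝ) := by
  classical
  set D := ∑ n ∈ W, F (s * n) - ∑ n ∈ W, F n with hD
  obtain ⟨c, hc, hcD⟩ := RCLike.exists_norm_eq_mul_self D
  have h := sum_dilate hs W (fun n => (c * F n).re) (fun n => by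
    refine (Complex.abs_re_le_norm _).trans ?_
    rw [norm_mul, hc, one_mul]
    exact hF n)
  have e : ‖D‖ = ∑ n ∈ W, (c * F (s * n)).re - ∑ n ∈ W, (c * F n).re := by
    have h1 : ((‖D‖ : ℝ) : ℂ) = c * D := hcD
    have h2 : ‖D‖ = (c * D).re := by rw [← h1, Complex.ofReal_re]
    rw [h2, hD, mul_sub, Finset.mul_sum, Finset.mul_sum, Complex.sub_re, Complex.re_sum,
      Complex.re_sum]
  rw [e]
  exact (le_abs_self _).trans h

section
variable {p q : ℕ} (hp : 2 ≤ p) (hq : 2 ≤ q)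
include hp hq

/-- the windows are nearly invariant -/
lemma inv_pow (hirr : Irrational (Real.log p / Real.log q)) (j : ℕ) {η : ℝ} (hη : 0 < η) :
    ∀ᶠ H : ℝ in atTop, ∀ᶠ τ : ℝ in 𝓝[>] 0,
      (((win p q (1 / τ) (H / τ)).filter fun n => p ^ j * n ∉ win p q (1 / τ) (H / τ)).card : ℝ) ≤
        η * (win p q (1 / τ) (H / τ)).card := by
  classical
  rcases Nat.eq_zero_or_pos j with rfl | hj
  · filter_upwards with H
    filter_upwards with τ
    have : ((win p q (1 / τ) (H / τ)).filter fun n => p ^ 0 * n ∉ win p q (1 / τ) (H / τ)) = ∅ := by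
      rw [Finset.filter_eq_empty_iff]
      intro n hn
      rw [pow_zero, one_mul, not_not]
      exact hn
    rw [this, Finset.card_empty, Nat.cast_zero]
    positivity
  · have h2 : 2 ≤ p ^ j := hp.trans (Nat.le_self_pow (by omega) p)
    obtain ⟨H0, hH0, h⟩ := near_inv hp hq hirr (s := p ^ j) h2 hη
    filter_upwards [eventually_ge_atTop H0] with H hH
    obtain ⟨δ, hδ, h3⟩ := h H hH
    filter_upwards [Ioo_mem_nhdsGT hδ] with τ hτ
    refine le_trans ?_ (h3 τ hτ.1 hτ.2)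
    have h4 : ((win p q (1 / τ) (H / τ)).filter fun n => p ^ j * n ∉ win p q (1 / τ) (H / τ)).card ≤
        ((win p q (1 / τ) (H / τ)).filter fun n => H / τ ≤ ((p ^ j * n : ℕ) : ℝ)).card := by
      refine Finset.card_le_card fun n hn => ?_
      rw [Finset.mem_filter] at hn ⊢
      refine ⟨hn.1, ?_⟩
      by_contra hlt
      push Not at hlt
      apply hn.2
      have hnW := hn.1
      rw [mem_win] at hnW ⊢
      obtain ⟨⟨a, b, rfl⟩, h4, h5⟩ := hnW
      refine ⟨⟨a + j, b, by ring⟩, ?_, hlt⟩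
      refine h4.trans ?_
      exact_mod_cast Nat.le_mul_of_pos_left _ (by positivity)
    refine le_trans (Nat.cast_le.2 h4) (le_of_eq ?_)
    congr 2

/-- the mean of `p ^ s`-dilates of the first character -/
noncomputable def G (p S : ℕ) (w : T) : ℂ :=
  (S : ℂ)⁻¹ * ∑ s ∈ Finset.range S, (fourier ((p : ℤ) ^ s) w : ℂ)

omit hp hq in
lemma G_cont (p S : ℕ) : Continuous (G p S) := by
  unfold G
  exact continuous_const.mul (continuous_finsetSum _ fun s _ => (fourier _).continuous)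

omit hq in
lemma G_sq {S R : ℕ} (hS : 1 ≤ S) (hR : S ≤ R) :
    ∑ k ∈ Finset.range (p ^ R), ‖G p S (hh p R k)‖ ^ 2 = (p : ℝ) ^ R / S := by
  have hSC : (S : ℂ) ≠ 0 := by
    have : S ≠ 0 := by omega
    exact_mod_cast this
  have h1 : ∀ w : T, ((‖G p S w‖ ^ 2 : ℝ) : ℂ) = ((S : ℂ)⁻¹) ^ 2 *
      ∑ s ∈ Finset.range S, ∑ s' ∈ Finset.range S,
        (fourier ((p : ℤ) ^ s - (p : ℤ) ^ s') w : ℂ) := by
    intro w
    have h2 : ((‖G p S w‖ ^ 2 : ℝ) : ℂ) = G p S w * (starRingEnd ℂ) (G p S w) := by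
      rw [Complex.mul_conj, Complex.normSq_eq_norm_sq]
    rw [h2]
    unfold G
    rw [map_mul, map_sum, map_inv₀, Complex.conj_natCast]
    have h3 : (∑ s ∈ Finset.range S, ∑ s' ∈ Finset.range S,
        (fourier ((p : ℤ) ^ s - (p : ℤ) ^ s') w : ℂ)) =
        (∑ s ∈ Finset.range S, (fourier ((p : ℤ) ^ s) w : ℂ)) *
          ∑ s ∈ Finset.range S, (starRingEnd ℂ) (fourier ((p : ℤ) ^ s) w : ℂ) := by
      rw [Finset.sum_mul_sum]
      refine Finset.sum_congr rfl fun s _ => Finset.sum_congr rfl fun s' _ => ?_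
      rw [sub_eq_add_neg, fourier_add, fourier_neg]
    rw [h3]
    ring
  have h2 : ∀ s ∈ Finset.range S, ∀ s' ∈ Finset.range S,
      ∑ k ∈ Finset.range (p ^ R), (fourier ((p : ℤ) ^ s - (p : ℤ) ^ s') (hh p R k) : ℂ) =
        if s = s' then ((p ^ R : ℕ) : ℂ) else 0 := by
    intro s hs s' hs'
    rw [Finset.mem_range] at hs hs'
    split_ifs with h
    · rw [h, sub_self]
      simp
    · have h3 := fourier_sum_zero (p := p) (by omega) R (t := (p : ℤ) ^ s - (p : ℤ) ^ s') (by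
        intro hdvd
        have h4 : ((p : ℤ) ^ s - (p : ℤ) ^ s') ≠ 0 := by
          intro h5
          apply h
          have h6 : (p : ℤ) ^ s = (p : ℤ) ^ s' := by linarith
          have h7 : p ^ s = p ^ s' := by exact_mod_cast h6
          exact Nat.pow_right_injective hp h7
        have h5 := Int.le_of_dvd (abs_pos.2 h4) ((dvd_abs _ _).2 hdvd)
        have h6 : ∀ t, t < S → (p : ℤ) ^ t < (p : ℤ) ^ R := fun t ht => by
          have : p ^ t < p ^ R := Nat.pow_lt_pow_right (by omega) (by omega)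
          exact_mod_cast this
        have h7 : ∀ t, (0 : ℤ) < (p : ℤ) ^ t := fun t => by positivity
        rcases abs_cases ((p : ℤ) ^ s - (p : ℤ) ^ s') with ⟨h8, -⟩ | ⟨h8, -⟩
        · have := h6 s hs; have := h7 s'; omega
        · have := h6 s' hs'; have := h7 s; omega) 0
      simp_rw [zero_add] at h3
      exact h3
  have h3 : ((∑ k ∈ Finset.range (p ^ R), ‖G p S (hh p R k)‖ ^ 2 : ℝ) : ℂ) =
      (((p : ℝ) ^ R / S : ℝ) : ℂ) := by
    rw [Complex.ofReal_sum]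
    simp_rw [h1]
    rw [← Finset.mul_sum, Finset.sum_comm]
    have h4 : ∀ s ∈ Finset.range S, ∑ k ∈ Finset.range (p ^ R), ∑ s' ∈ Finset.range S,
        (fourier ((p : ℤ) ^ s - (p : ℤ) ^ s') (hh p R k) : ℂ) = ((p ^ R : ℕ) : ℂ) := by
      intro s hs
      rw [Finset.sum_comm, Finset.sum_congr rfl (h2 s hs), Finset.sum_ite_eq, if_pos hs]
    rw [Finset.sum_congr rfl h4, Finset.sum_const, Finset.card_range, nsmul_eq_mul]
    push_cast
    field_simp
  exact_mod_cast h3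

omit hq in
lemma near_hh (R : ℕ) (w : T) : ∃ k ∈ Finset.range (p ^ R), ‖w - hh p R k‖ ≤ 1 / (p : ℝ) ^ R := by
  obtain ⟨x, hx0, hx1, rfl⟩ := exists_rep w
  have hN : (0 : ℝ) < (p : ℝ) ^ R := by positivity
  refine ⟨⌊x * (p : ℝ) ^ R⌋₊, ?_, ?_⟩
  · rw [Finset.mem_range, Nat.floor_lt (by positivity)]
    push_cast
    nlinarith
  · unfold hh
    rw [← AddCircle.coe_sub]
    have h1 : (⌊x * (p : ℝ) ^ R⌋₊ : ℝ) ≤ x * (p : ℝ) ^ R := Nat.floor_le (by positivity)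
    have h2 : x * (p : ℝ) ^ R < ⌊x * (p : ℝ) ^ R⌋₊ + 1 := Nat.lt_floor_add_one _
    refine (show ‖((x - (⌊x * (p : ℝ) ^ R⌋₊ : ℝ) / (p : ℝ) ^ R : ℝ) : T)‖ ≤
      |x - (⌊x * (p : ℝ) ^ R⌋₊ : ℝ) / (p : ℝ) ^ R| from ?_).trans ?_
    · rw [UnitAddCircle.norm_eq]
      exact round_le _ 0 |>.trans (by simp)
    · rw [abs_le]
      constructor
      · have : (⌊x * (p : ℝ) ^ R⌋₊ : ℝ) / (p : ℝ) ^ R ≤ x := by rwa [div_le_iff₀ hN]
        have h3 : 0 < 1 / (p : ℝ) ^ R := by positivity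
        linarith
      · rw [sub_le_iff_le_add, ← add_div, le_div_iff₀ hN]
        linarith

/-- **Uncorrelated points.** -/
theorem pair_small (hirr : Irrational (Real.log p / Real.log q)) {K : ℝ} (hK : 1 ≤ K) {η : ℝ}
    (hη : 0 < η) : ∀ᶠ H : ℝ in atTop, ∀ᶠ τ : ℝ in 𝓝[>] 0, (win p q (1 / τ) (H / τ)).Nonempty ∧
      ∀ z : T, τ ≤ ‖z‖ → ‖z‖ ≤ K * τ → ‖∑ n ∈ win p q (1 / τ) (H / τ), (fourier 1 (n • z) : ℂ)‖ ≤
        η * (win p q (1 / τ) (H / τ)).card := by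
  classical
  obtain ⟨S, hS⟩ := exists_nat_ge (648 / η ^ 2)
  have hSR : (0 : ℝ) < S := lt_of_lt_of_le (by positivity) hS
  have hS1 : 1 ≤ S := by
    have : 0 < S := by exact_mod_cast hSR
    exact this
  have hS2 : 1 / (S : ℝ) ≤ η ^ 2 / 648 := by
    rw [div_le_div_iff₀ hSR (by norm_num)]
    rw [div_le_iff₀ (by positivity)] at hS
    linarith
  set F : T → ℝ := fun w => ‖G p S w‖ ^ 2 with hF
  have hFc : Continuous F := (G_cont p S).norm.pow 2
  have hFu := CompactSpace.uniformContinuous_of_continuous hFc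
  obtain ⟨ρ, hρ, hρ2⟩ := Metric.uniformContinuous_iff.1 hFu (η ^ 2 / 648) (by positivity)
  obtain ⟨R0, hR0⟩ := exists_pow_lt_of_lt_one hρ (show (1 : ℝ) / 2 < 1 by norm_num)
  obtain ⟨R, hRS, hR3, hRR⟩ : ∃ R, S ≤ R ∧ 3 ≤ R ∧ R0 ≤ R :=
    ⟨max S (max 3 R0), le_max_left _ _, (le_max_left _ _).trans (le_max_right _ _),
      (le_max_right _ _).trans (le_max_right _ _)⟩
  have hpR : (0 : ℝ) < (p : ℝ) ^ R := by positivity
  have hp2 : (2 : ℝ) ^ R ≤ (p : ℝ) ^ R := by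
    have : (2 : ℝ) ≤ p := by exact_mod_cast hp
    gcongr
  have hr : 1 / (p : ℝ) ^ R < ρ := by
    calc 1 / (p : ℝ) ^ R ≤ 1 / (2 : ℝ) ^ R := by gcongr
      _ = (1 / 2) ^ R := by rw [div_pow, one_pow]
      _ ≤ (1 / 2) ^ R0 := pow_le_pow_of_le_one (by norm_num) (by norm_num) hRR
      _ < ρ := hR0
  have hr8 : 1 / (p : ℝ) ^ R ≤ 1 / 8 := by
    have h8 : (8 : ℝ) ≤ (p : ℝ) ^ R := by
      calc (8 : ℝ) = 2 ^ 3 := by norm_num
        _ ≤ 2 ^ R := pow_le_pow_right₀ (by norm_num) hR3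
        _ ≤ _ := hp2
    gcongr
  have hev1 : ∀ᶠ H : ℝ in atTop, ∀ᶠ τ : ℝ in 𝓝[>] 0, ∀ s ∈ Finset.range S,
      (((win p q (1 / τ) (H / τ)).filter fun n => p ^ s * n ∉ win p q (1 / τ) (H / τ)).card : ℝ) ≤
        η / 4 * (win p q (1 / τ) (H / τ)).card := by
    have h1 : ∀ᶠ H : ℝ in atTop, ∀ s ∈ Finset.range S, ∀ᶠ τ : ℝ in 𝓝[>] 0,
      (((win p q (1 / τ) (H / τ)).filter fun n => p ^ s * n ∉ win p q (1 / τ) (H / τ)).card : ℝ) ≤
        η / 4 * (win p q (1 / τ) (H / τ)).card :=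
      (eventually_all_finset _).2 fun s _ => inv_pow hp hq hirr s (by positivity)
    filter_upwards [h1] with H hH
    exact (eventually_all_finset _).2 hH
  filter_upwards [hev1, eventually_ge_atTop (max K (Real.exp 2))] with H hH hH2
  have hHK : K ≤ H := (le_max_left _ _).trans hH2
  have hHe : Real.exp 2 ≤ H := (le_max_right _ _).trans hH2
  have hH0 : 0 < H := (Real.exp_pos _).trans_le hHe
  have hHlog : 2 ≤ Real.log H := (Real.le_log_iff_exp_le hH0).2 hHe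
  have hHgt : 1 < H := by
    have := Real.add_one_le_exp (2 : ℝ)
    linarith
  obtain ⟨δ, hδ, harc⟩ := arc_win hp hq hirr hK hHK hHlog (r := 1 / (p : ℝ) ^ R) (by positivity)
    hr8 (η := 1 / (p : ℝ) ^ R) (by positivity)
  obtain ⟨δ', hδ', hcard⟩ := card_large hp hq hirr hHgt 1
  filter_upwards [hH, Ioo_mem_nhdsGT hδ, Ioo_mem_nhdsGT hδ'] with τ hτ1 hτ2 hτ3
  have hc := hcard τ hτ3.1 hτ3.2
  set W := win p q (1 / τ) (H / τ) with hW
  have hWR : (0 : ℝ) < W.card := by linarith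
  have hWne : W.Nonempty := Finset.card_pos.1 (by exact_mod_cast hWR)
  refine ⟨hWne, fun z hz1 hz2 => ?_⟩
  -- the mean square of `G`
  have hGs : ∑ n ∈ W, ‖G p S (n • z)‖ ^ 2 ≤ η ^ 2 / 4 * W.card := by
    have h1 : ∀ n ∈ W, ‖G p S (n • z)‖ ^ 2 ≤ ∑ k ∈ Finset.range (p ^ R),
        if ‖n • z - hh p R k‖ ≤ 1 / (p : ℝ) ^ R then (F (hh p R k) + η ^ 2 / 648) else 0 := by
      intro n _
      obtain ⟨k, hk, hk2⟩ := near_hh (p := p) hp R (n • z)
      have h2 : (if ‖n • z - hh p R k‖ ≤ 1 / (p : ℝ) ^ R then (F (hh p R k) + η ^ 2 / 648) else 0) ≤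
          ∑ k ∈ Finset.range (p ^ R),
            if ‖n • z - hh p R k‖ ≤ 1 / (p : ℝ) ^ R then (F (hh p R k) + η ^ 2 / 648) else 0 :=
        Finset.single_le_sum (f := fun k => if ‖n • z - hh p R k‖ ≤ 1 / (p : ℝ) ^ R then
          (F (hh p R k) + η ^ 2 / 648) else 0) (fun k _ => by
            split_ifs
            · simp only [hF]; positivity
            · exact le_rfl) hk
      rw [if_pos hk2] at h2
      refine le_trans ?_ h2
      have h3 := hρ2 (a := n • z) (b := hh p R k) (by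
        rw [dist_eq_norm]; exact hk2.trans_lt hr)
      rw [Real.dist_eq, abs_lt] at h3
      have h4 : ‖G p S (n • z)‖ ^ 2 = F (n • z) := rfl
      rw [h4]
      linarith [h3.2]
    refine (Finset.sum_le_sum h1).trans ?_
    rw [Finset.sum_comm]
    have h2 : ∀ k ∈ Finset.range (p ^ R), (∑ n ∈ W,
        if ‖n • z - hh p R k‖ ≤ 1 / (p : ℝ) ^ R then (F (hh p R k) + η ^ 2 / 648) else 0) ≤
        (F (hh p R k) + η ^ 2 / 648) * (81 / (p : ℝ) ^ R * W.card) := by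
      intro k _
      rw [← Finset.sum_filter, Finset.sum_const, nsmul_eq_mul, mul_comm]
      have h3 := harc τ hτ2.1 hτ2.2 z hz1 hz2 (hh p R k)
      have h4 : 0 ≤ F (hh p R k) + η ^ 2 / 648 := by simp only [hF]; positivity
      refine mul_le_mul_of_nonneg_left ?_ h4
      refine h3.trans (le_of_eq ?_)
      rw [← hW]
      ring
    refine (Finset.sum_le_sum h2).trans ?_
    rw [← Finset.sum_mul, Finset.sum_add_distrib, Finset.sum_const, Finset.card_range,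
      nsmul_eq_mul]
    have h3 := G_sq (p := p) hp hS1 hRS
    have h4 : ∑ k ∈ Finset.range (p ^ R), F (hh p R k) = (p : ℝ) ^ R / S := h3
    rw [h4]
    push_cast
    have e : ((p : ℝ) ^ R / S + (p : ℝ) ^ R * (η ^ 2 / 648)) * (81 / (p : ℝ) ^ R * W.card) =
        81 * (1 / S + η ^ 2 / 648) * W.card := by
      field_simp
    rw [e]
    have h5 : 81 * (1 / S + η ^ 2 / 648) ≤ η ^ 2 / 4 := by linarith
    gcongr
  have hG1 : ‖∑ n ∈ W, G p S (n • z)‖ ≤ η / 2 * W.card := by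
    have h1 : ‖∑ n ∈ W, G p S (n • z)‖ ≤ ∑ n ∈ W, ‖G p S (n • z)‖ := norm_sum_le _ _
    have h2 : (∑ n ∈ W, ‖G p S (n • z)‖) ^ 2 ≤ W.card * ∑ n ∈ W, ‖G p S (n • z)‖ ^ 2 :=
      sq_sum_le_card_mul_sum_sq
    have h3 : (∑ n ∈ W, ‖G p S (n • z)‖) ^ 2 ≤ (η / 2 * W.card) ^ 2 := by
      refine h2.trans ?_
      calc (W.card : ℝ) * ∑ n ∈ W, ‖G p S (n • z)‖ ^ 2 ≤ W.card * (η ^ 2 / 4 * W.card) := by
            gcongr
        _ = (η / 2 * W.card) ^ 2 := by ring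
    exact h1.trans (abs_le_of_sq_le_sq' h3 (by positivity)).2
  -- the dilates
  have hsum : ∑ n ∈ W, G p S (n • z) = (S : ℂ)⁻¹ * ∑ s ∈ Finset.range S,
      ∑ n ∈ W, (fourier 1 ((p ^ s * n) • z) : ℂ) := by
    unfold G
    rw [← Finset.mul_sum, Finset.sum_comm]
    congr 1
    refine Finset.sum_congr rfl fun s _ => Finset.sum_congr rfl fun n _ => ?_
    have h1 := fourier_smul 1 (p ^ s) (n • z)
    rw [one_mul] at h1
    rw [mul_smul, h1]
    push_cast
    rfl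
  have hdiff : ‖∑ n ∈ W, G p S (n • z) - ∑ n ∈ W, (fourier 1 (n • z) : ℂ)‖ ≤
      η / 2 * W.card := by
    have hSC : (S : ℂ) ≠ 0 := by exact_mod_cast hSR.ne'
    have e : ∑ n ∈ W, G p S (n • z) - ∑ n ∈ W, (fourier 1 (n • z) : ℂ) =
        (S : ℂ)⁻¹ * ∑ s ∈ Finset.range S, (∑ n ∈ W, (fourier 1 ((p ^ s * n) • z) : ℂ) -
          ∑ n ∈ W, (fourier 1 (n • z) : ℂ)) := by
      rw [hsum, Finset.sum_sub_distrib, Finset.sum_const, Finset.card_range, nsmul_eq_mul, mul_sub,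
        inv_mul_cancel_left₀ hSC]
    rw [e, norm_mul, norm_inv, Complex.norm_natCast]
    have h1 : ‖∑ s ∈ Finset.range S, (∑ n ∈ W, (fourier 1 ((p ^ s * n) • z) : ℂ) -
          ∑ n ∈ W, (fourier 1 (n • z) : ℂ))‖ ≤ S * (η / 2 * W.card) := by
      refine (norm_sum_le _ _).trans ((Finset.sum_le_card_nsmul _ _ (η / 2 * W.card)
        fun s hs => ?_).trans (le_of_eq ?_))
      · have h2 := sum_dilate_c (s := p ^ s) (Nat.one_le_pow _ _ (by omega)) W
          (fun n => (fourier 1 (n • z) : ℂ)) (fun n => (norm_fourier _ _).le)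
        have h3 := hτ1 s hs
        refine h2.trans ?_
        calc 2 * ((W.filter fun n => p ^ s * n ∉ W).card : ℝ) ≤ 2 * (η / 4 * W.card) := by
              gcongr
          _ = η / 2 * W.card := by ring
      · rw [Finset.card_range, nsmul_eq_mul]
    calc (S : ℝ)⁻¹ * ‖∑ s ∈ Finset.range S, (∑ n ∈ W, (fourier 1 ((p ^ s * n) • z) : ℂ) -
          ∑ n ∈ W, (fourier 1 (n • z) : ℂ))‖ ≤ (S : ℝ)⁻¹ * (S * (η / 2 * W.card)) := by gcongr
      _ = η / 2 * W.card := by field_simp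
  calc ‖∑ n ∈ W, (fourier 1 (n • z) : ℂ)‖ = ‖∑ n ∈ W, G p S (n • z) -
        (∑ n ∈ W, G p S (n • z) - ∑ n ∈ W, (fourier 1 (n • z) : ℂ))‖ := by rw [sub_sub_cancel]
    _ ≤ η / 2 * W.card + η / 2 * W.card := (norm_sub_le _ _).trans (add_le_add hG1 hdiff)
    _ = η * W.card := by ring

/-- all the characters of bounded frequency -/
theorem pair_char (hirr : Irrational (Real.log p / Real.log q)) {K : ℝ} (hK : 1 ≤ K) {η : ℝ}
    (hη : 0 < η) (M : ℕ) : ∀ᶠ H : ℝ in atTop, ∀ᶠ τ : ℝ in 𝓝[>] 0,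
      (win p q (1 / τ) (H / τ)).Nonempty ∧ ∀ z : T, τ ≤ ‖z‖ → ‖z‖ ≤ K * τ → ∀ k : ℤ, k ≠ 0 →
        |k| ≤ M → ‖∑ n ∈ win p q (1 / τ) (H / τ), (fourier k (n • z) : ℂ)‖ ≤
          η * (win p q (1 / τ) (H / τ)).card := by
  have hM1 : (1 : ℝ) ≤ (M + 1 : ℝ) := by
    have : (0 : ℝ) ≤ M := Nat.cast_nonneg _
    linarith
  have hK' : 1 ≤ (M + 1 : ℝ) * K := by nlinarith
  filter_upwards [pair_small hp hq hirr hK' hη] with H hH
  have hδ : (0 : ℝ) < 1 / (2 * ((M + 1 : ℝ) * K)) := by positivity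
  filter_upwards [hH, Ioo_mem_nhdsGT hδ] with τ hτ hτ2
  refine ⟨hτ.1, fun z hz1 hz2 k hk0 hkM => ?_⟩
  have hkR : |(k : ℝ)| ≤ M := by exact_mod_cast hkM
  have hk1 : 1 ≤ |(k : ℝ)| := by
    have : 1 ≤ |k| := Int.one_le_abs hk0
    exact_mod_cast this
  have hτ3 := hτ2.2
  rw [lt_div_iff₀ (by positivity)] at hτ3
  have hτ0 : 0 < τ := hτ2.1
  have hsmall : |(k : ℝ)| * ‖z‖ ≤ 1 / 2 := by
    have h1 : |(k : ℝ)| * ‖z‖ ≤ (M + 1) * (K * τ) :=
      mul_le_mul (by linarith) hz2 (norm_nonneg _) (by linarith)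
    nlinarith
  have hnorm : ‖k • z‖ = |(k : ℝ)| * ‖z‖ := by
    have h1 : ∀ x : ℝ, |x| ≤ 1 / 2 → ‖((x : ℝ) : T)‖ = |x| := fun x hx =>
      (AddCircle.norm_coe_eq_abs_iff (p := (1 : ℝ)) one_ne_zero).2 (by rwa [abs_one])
    have h2 : ‖k • ((‖z‖ : ℝ) : T)‖ = |(k : ℝ)| * ‖z‖ := by
      rw [← AddCircle.coe_zsmul, h1, zsmul_eq_mul, abs_mul, abs_norm]
      rw [zsmul_eq_mul, abs_mul, abs_norm]
      exact hsmall
    rcases eq_or_neg z with h | h
    · conv_lhs => rw [h]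
      exact h2
    · conv_lhs => rw [h]
      rw [smul_neg, norm_neg]
      exact h2
  have h1 : ∀ n : ℕ, (fourier k (n • z) : ℂ) = fourier 1 (n • (k • z)) := by
    intro n
    rw [fourier_apply, fourier_apply, one_smul, smul_comm]
  simp_rw [h1]
  refine hτ.2 (k • z) ?_ ?_
  · rw [hnorm]
    nlinarith
  · rw [hnorm]
    calc |(k : ℝ)| * ‖z‖ ≤ (M + 1) * (K * τ) :=
          mul_le_mul (by linarith) hz2 (norm_nonneg _) (by linarith)
      _ = (M + 1) * K * τ := by ring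

end

end Pool.Agent.Helper26K1.WW
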